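import Mathlib

/-!
# MP_5ee2d0_ag, numerical dimension one: a class which is nonnegative on the curves of degree zero

`G` is a simply connected projective threefold with trivial canonical class (here a smooth one), `L` a
nef class with `L^2 = 0`, `H` a very ample class. The theorem `Primes.nef` says: if `w.L.H > 0`, if
`w.C ≥ 0` for all curves `C` with `L.C = 0`, and `w^2.L > 0`, or `w^2.L = 0` and `w^3 ≥ 0`, then
`w + n L` is nef for large `n`.
-/

namespace Pool.Agent.H33.N1

open Filter

/-- Prime divisors of the smooth threefold `G` and the curves with `L.C = 0`; `Triv C`: the degree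
function `C` of an irreducible curve with `L.C = 0`. -/
structure Primes {P : Type} [AddCommGroup P] (T : P → P → P → ℤ) (h : Fin 4 → P → ℕ)
    (Nef : P → Prop) (Triv : (P → ℤ) → Prop) (H L : P) where
  add : ∀ C, Triv C → ∀ x y, C (x + y) = C x + C y
  zero : ∀ C, Triv C → C L = 0
  ample : ∀ C, Triv C → 0 < C H
  /-- the classes of the prime divisors -/
  Pr : P → Prop
  /-- two different prime divisors intersect in a curve or not at all -/
  two : ∀ g g', Pr g → Pr g' → g ≠ g' → 0 ≤ T H g g'
  pos : ∀ g, Pr g → 0 < T H H g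
  /-- `L` is nef -/
  nef : ∀ g, Pr g → 0 ≤ T H L g
  /-- if `L.H.g = 0` then the curve `H ∩ g` has `L`-degree zero; it is irreducible (Bertini) -/
  triv : ∀ g, Pr g → T H L g = 0 → Triv fun x => T H x g
  /-- Serre duality; a class of negative degree has no sections -/
  top : ∀ D, 0 < T H H D → h 3 D = 0
  /-- Bogomolov's instability theorem, Reider's argument. A nonzero element of `H^1(G, -D)`, the dual
  of `H^2(G, D)`, is a nonsplit extension `0 → O → E → O(D) → 0` with `c_1(E)^2.H > 0 = 4 c_2(E).H`, so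
  there is an exact sequence `0 → O(D - B) → E → I_Z(B) → 0` with `D - 2 B` in the positive cone of the
  form `x.y.H`; `O(D - B)` has positive degree, so it maps to `O(D)`, this is not an isomorphism, and
  `B` is effective, not zero; `(D - B).B.H ≤ 0` because `c_2(E) = 0`. By the Hodge index theorem
  `D.B.H ≤ 0`. -/
  bog : ∀ D, 0 < T H D D → 0 < T H H D → (∀ g, Pr g → 0 < T H D g) → h 2 D = 0
  /-- Kawamata: lengths of extremal rays. The classes `D + H/a` are represented by effective
  `ℚ`-divisors of bounded degree, so of bounded multiplicity (`H` is very ample). So there is `k` such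
  that for all `a` the extremal rays on which `D + H/a` is negative are spanned by curves `C` with
  `(D + H/a).C ≥ - k`, and `L.C ≥ 1`, since otherwise `L.C = 0` and `D.C ≥ 0`. So `D + k L + H/a` is nef
  for all `a`. -/
  cone : ∀ D, (∀ᶠ a : ℕ in atTop, h 0 (a • D + H) ≠ 0) → (∀ C, Triv C → 0 ≤ C D) →
    ∀ᶠ k : ℕ in atTop, Nef (D + k • L)

variable {P : Type} [AddCommGroup P] {T : P → P → P → ℤ} {c : P → ℤ} {h : Fin 4 → P → ℕ}
  {Nef : P → Prop} {Triv : (P → ℤ) → Prop} {H L : P}

/-- a trilinear symmetric form -/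
structure Tri (T : P → P → P → ℤ) : Prop where
  add : ∀ x y a b, T x y (a + b) = T x y a + T x y b
  s12 : ∀ x y z, T x y z = T y x z
  s23 : ∀ x y z, T x y z = T x z y

namespace Tri

variable (t : Tri T)
include t

/-- the third variable as a homomorphism -/
def hom (x y : P) : P →+ ℤ := AddMonoidHom.mk' (T x y) (t.add x y)

@[simp] theorem hom_apply (x y z : P) : t.hom x y z = T x y z := rfl

theorem add2 (x a b z : P) : T x (a + b) z = T x a z + T x b z := by
  rw [t.s23, t.add, t.s23 x z a, t.s23 x z b]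

theorem add1 (a b y z : P) : T (a + b) y z = T a y z + T b y z := by
  rw [t.s12, t.add2, t.s12 y a, t.s12 y b]

theorem sm3 (k : ℤ) (x y z : P) : T x y (k • z) = k * T x y z := by
  have := map_zsmul (t.hom x y) k z
  simpa using this

theorem sm2 (k : ℤ) (x y z : P) : T x (k • y) z = k * T x y z := by
  rw [t.s23, t.sm3, t.s23]

theorem sm1 (k : ℤ) (x y z : P) : T (k • x) y z = k * T x y z := by
  rw [t.s12, t.sm2, t.s12]

theorem nsm3 (k : ℕ) (x y z : P) : T x y (k • z) = k * T x y z := by
  have := t.sm3 (k : ℤ) x y z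
  simpa using this

theorem nsm2 (k : ℕ) (x y z : P) : T x (k • y) z = k * T x y z := by
  rw [t.s23, t.nsm3, t.s23]

theorem nsm1 (k : ℕ) (x y z : P) : T (k • x) y z = k * T x y z := by
  rw [t.s12, t.nsm2, t.s12]

theorem zero3 (x y : P) : T x y 0 = 0 := by
  have := map_zero (t.hom x y)
  simpa using this

theorem neg3 (x y z : P) : T x y (-z) = - T x y z := by
  have := map_neg (t.hom x y) z
  simpa using this

theorem sub3 (x y a b : P) : T x y (a - b) = T x y a - T x y b := by
  have := map_sub (t.hom x y) a b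
  simpa using this

/-- two classes of the closed positive cone -/
theorem lorentz (hodge : ∀ z, T H H z = 0 → 0 ≤ T H z z → z = 0) {x y : P} (hx : 0 < T H H x)
    (hy : 0 < T H H y) (hxx : 0 ≤ T H x x) (hyy : 0 ≤ T H y y) : 0 ≤ T H x y := by
  by_contra hneg
  rw [not_le] at hneg
  set a := T H H x with ha
  set b := T H H y with hb
  let z := b • x - a • y
  have hz : T H H z = 0 := by
    simp only [z, t.sub3, t.sm3]
    rw [← ha, ← hb]; ring
  have hzz : T H z z = b ^ 2 * T H x x - 2 * a * b * T H x y + a ^ 2 * T H y y := by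
    simp only [z, sub_eq_add_neg, t.add, t.add2, t.neg3, t.sm3, t.sm2]
    have e1 : T H (-(a • y)) x = - (a * T H x y) := by
      rw [t.s23, t.neg3, t.sm3]
    have e2 : T H (-(a • y)) y = - (a * T H y y) := by
      rw [t.s23, t.neg3, t.sm3]
    rw [e1, e2]
    ring
  have h1 : 0 < T H z z := by
    rw [hzz]
    have : 0 < - (2 * a * b * T H x y) := by
      have := mul_pos (mul_pos (mul_pos two_pos hx) hy) (neg_pos.2 hneg)
      linarith
    have h2 : 0 ≤ b ^ 2 * T H x x := by positivity
    have h3 : 0 ≤ a ^ 2 * T H y y := by positivity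
    linarith
  have h0 := hodge z hz h1.le
  rw [h0, t.zero3] at h1
  exact lt_irrefl _ h1

end Tri

namespace Primes

variable (S : Primes T h Nef Triv H L) (t : Tri T) (hodge : ∀ z, T H H z = 0 → 0 ≤ T H z z → z = 0)
include t hodge

/-- the prime divisors on which a class of the positive cone is negative are independent -/
theorem indep {D : P} (hD : 0 < T H H D) (hDD : 0 < T H D D) :
    LinearIndependent ℤ (fun g : {g // S.Pr g ∧ T H D g < 0} => (g : P)) := by
  classical
  rw [linearIndependent_iff']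
  intro s co hsum
  set A : P := ∑ i ∈ s, (max (co i) 0) • (i : P) with hA
  set B : P := ∑ i ∈ s, (max (-co i) 0) • (i : P) with hB
  have hAB : A = B := by
    have : A - B = 0 := by
      rw [hA, hB, ← Finset.sum_sub_distrib, ← hsum]
      refine Finset.sum_congr rfl fun i _ => ?_
      rw [← sub_smul]
      congr 1
      rcases le_total (co i) 0 with h0 | h0
      · rw [max_eq_right h0, max_eq_left (by linarith)]; ring
      · rw [max_eq_left h0, max_eq_right (by linarith)]; ring
    exact sub_eq_zero.1 this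
  have sumT : ∀ (x y : P) (f : {g // S.Pr g ∧ T H D g < 0} → ℤ),
      T x y (∑ i ∈ s, f i • (i : P)) = ∑ i ∈ s, f i * T x y i := by
    intro x y f
    have := map_sum (t.hom x y) (fun i => f i • (i : P)) s
    simp only [Tri.hom_apply] at this
    rw [this]
    exact Finset.sum_congr rfl fun i _ => t.sm3 _ _ _ _
  have hABnn : 0 ≤ T H A B := by
    rw [hB, sumT]
    refine Finset.sum_nonneg fun j _ => ?_
    rw [t.s23, hA, sumT, Finset.mul_sum]
    refine Finset.sum_nonneg fun i _ => ?_
    by_cases hij : i = j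
    · subst hij
      have : max (-co i) 0 * max (co i) 0 = 0 := by
        rcases le_total (co i) 0 with h0 | h0
        · rw [max_eq_right h0]; ring
        · rw [max_eq_right (show -co i ≤ 0 by linarith)]; ring
      rw [← mul_assoc, this, zero_mul]
    · have hne : (j : P) ≠ i := fun e => hij (Subtype.ext e.symm)
      have := S.two j i j.2.1 i.2.1 hne
      have h1 : 0 ≤ max (-co j) 0 := le_max_right _ _
      have h2 : 0 ≤ max (co i) 0 := le_max_right _ _
      positivity
  have hAA : 0 ≤ T H A A := by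
    nth_rewrite 2 [hAB]
    exact hABnn
  have key : ∀ i ∈ s, co i ≤ 0 := by
    intro i hi
    by_contra hpos
    rw [not_le] at hpos
    have hHA : 0 < T H H A := by
      rw [hA, sumT]
      refine Finset.sum_pos' (fun j _ => ?_) ⟨i, hi, ?_⟩
      · exact mul_nonneg (le_max_right _ _) (S.pos j j.2.1).le
      · exact mul_pos (lt_max_of_lt_left hpos) (S.pos i i.2.1)
    have hDA : T H D A < 0 := by
      rw [hA, sumT]
      have : 0 < ∑ j ∈ s, -(max (co j) 0 * T H D j) := by
        refine Finset.sum_pos' (fun j _ => ?_) ⟨i, hi, ?_⟩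
        · have := mul_nonneg (le_max_right (co j) 0) (neg_nonneg.2 j.2.2.le)
          linarith
        · have h1 : 0 < max (co i) 0 := lt_max_of_lt_left hpos
          have := mul_pos h1 (neg_pos.2 i.2.2)
          linarith
      rw [Finset.sum_neg_distrib] at this
      linarith
    have := t.lorentz hodge hD hHA hDD.le hAA
    linarith
  have hA0 : A = 0 := by
    rw [hA]
    refine Finset.sum_eq_zero fun i hi => ?_
    rw [max_eq_right (key i hi), zero_smul]
  have hB0 : T H H B = 0 := by rw [← hAB, hA0, t.zero3]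
  rw [hB, sumT] at hB0
  intro i hi
  have hnn : ∀ j ∈ s, 0 ≤ max (-co j) 0 * T H H j := fun j _ =>
    mul_nonneg (le_max_right _ _) (S.pos j j.2.1).le
  have h0 := (Finset.sum_eq_zero_iff_of_nonneg hnn).1 hB0 i hi
  have h1 := S.pos i i.2.1
  have h2 : max (-co i) 0 = 0 := by
    rcases mul_eq_zero.1 h0 with h | h
    · exact h
    · exact absurd h h1.ne'
  have h3 : -co i ≤ 0 := by rw [← h2]; exact le_max_left _ _
  have h4 := key i hi
  linarith

theorem fin [Module.Finite ℤ P] {D : P} (hD : 0 < T H H D) (hDD : 0 < T H D D) :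
    {g | S.Pr g ∧ T H D g < 0}.Finite := by
  have : Finite {g // S.Pr g ∧ T H D g < 0} := (S.indep t hodge hD hDD).finite_of_isNoetherian
  exact Set.finite_coe_iff.1 this

omit t hodge in
theorem big (a b : ℤ) (hb : 0 < b) : ∀ᶠ n : ℕ in atTop, 0 < a + n * b := by
  filter_upwards [eventually_ge_atTop (a.natAbs + 1)] with n hn
  have h1 : -(a.natAbs : ℤ) ≤ a := by
    have := neg_abs_le a
    rwa [← Int.natCast_natAbs] at this
  have h2 : (a.natAbs : ℤ) + 1 ≤ n := by exact_mod_cast hn
  have h3 : (0 : ℤ) ≤ a.natAbs := Int.natCast_nonneg _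
  nlinarith

omit hodge in
/-- the numbers of `w + n L` -/
theorem nums (hsq : ∀ z, T L L z = 0) (w : P) (n : ℕ) :
    T H H (w + n • L) = T H H w + n * T H H L ∧
    T H (w + n • L) (w + n • L) = T H w w + n * (2 * T H w L) ∧
    T (w + n • L) (w + n • L) (w + n • L) = T w w w + n * (3 * T L w w) := by
  refine ⟨by rw [t.add, t.nsm3], ?_, ?_⟩
  · rw [t.add, t.add2, t.add2, t.nsm3, t.nsm3, t.nsm2, t.nsm2]
    have e1 : T H L w = T H w L := t.s23 _ _ _
    have e2 : T H L L = 0 := by rw [t.s12, t.s23]; exact hsq H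
    rw [e1, e2]; ring
  · simp only [t.add, t.add2, t.add1, t.nsm3, t.nsm2, t.nsm1]
    have e1 : T w w L = T L w w := by rw [t.s23, t.s12]
    have e2 : T w L w = T L w w := t.s12 _ _ _
    have e3 : T w L L = 0 := by rw [t.s12, t.s23]; exact hsq w
    have e4 : T L w L = 0 := by rw [t.s23]; exact hsq w
    rw [e1, e2, e3, e4, hsq w, hsq L]; ring

/-- for large `n` the class `w + n L` is nonnegative on the prime divisors -/
theorem large [Module.Finite ℤ P] (hsq : ∀ z, T L L z = 0) (hl : 0 < T H H L) {w : P}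
    (hw : 0 < T H w L) (hC : ∀ C, Triv C → 0 ≤ C w) :
    ∀ᶠ n : ℕ in atTop, ∀ g, S.Pr g → 0 ≤ T H (w + n • L) g := by
  obtain ⟨n0, hn0⟩ : ∃ n0 : ℕ, 0 < T H H (w + n0 • L) ∧ 0 < T H (w + n0 • L) (w + n0 • L) := by
    obtain ⟨n, h1, h2⟩ := ((big (T H H w) _ hl).and
      (big (T H w w) (2 * T H w L) (by linarith))).exists
    obtain ⟨e1, e2, -⟩ := nums (H := H) t hsq w n
    exact ⟨n, by rw [e1]; exact h1, by rw [e2]; exact h2⟩
  have hfin := S.fin t hodge hn0.1 hn0.2
  obtain ⟨M, hM⟩ : ∃ M : ℕ, ∀ g ∈ {g | S.Pr g ∧ T H (w + n0 • L) g < 0},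
      (T H (w + n0 • L) g).natAbs ≤ M := by
    obtain ⟨M, hM⟩ := (hfin.image fun g => (T H (w + n0 • L) g).natAbs).bddAbove
    exact ⟨M, fun g hg => hM ⟨g, hg, rfl⟩⟩
  filter_upwards [eventually_ge_atTop (n0 + M)] with n hn g hg
  have hsplit : T H (w + n • L) g = T H (w + n0 • L) g + (n - n0 : ℕ) * T H L g := by
    have : w + n • L = (w + n0 • L) + (n - n0) • L := by
      rw [add_assoc, ← add_smul]
      congr 2
      omega
    rw [this, t.add2, t.nsm2]
  rcases lt_or_ge (T H (w + n0 • L) g) 0 with hneg | hpos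
  · have hb := hM g ⟨hg, hneg⟩
    have hL := S.nef g hg
    rcases hL.lt_or_eq with hLp | hL0
    · rw [hsplit]
      have h1 : -((T H (w + n0 • L) g).natAbs : ℤ) ≤ T H (w + n0 • L) g := by
        have := neg_abs_le (T H (w + n0 • L) g)
        rwa [← Int.natCast_natAbs] at this
      have h2 : (M : ℤ) ≤ ((n - n0 : ℕ) : ℤ) := by
        have : M ≤ n - n0 := by omega
        exact_mod_cast this
      have h3 : ((T H (w + n0 • L) g).natAbs : ℤ) ≤ M := by exact_mod_cast hb
      nlinarith
    · exfalso
      have hCu := S.triv g hg hL0.symm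
      have h1 := hC _ hCu
      have h2 : T H (w + n0 • L) g = T H w g := by
        rw [t.add2, t.nsm2, ← hL0]; ring
      rw [h2] at hneg
      exact absurd h1 (not_le.2 hneg)
  · rw [hsplit]
    have hL := S.nef g hg
    have : (0 : ℤ) ≤ ((n - n0 : ℕ) : ℤ) := Int.natCast_nonneg _
    have := mul_nonneg this hL
    linarith

include S in
/-- **Theorem.** Let `w.L.H > 0`, `w.C ≥ 0` for all curves `C` with `L.C = 0`, and `w^2.L > 0`, or
`w^2.L = 0` and `w^3 ≥ 0`. Then `w + n L` is nef for all large `n`. -/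
theorem nef_of [Module.Finite ℤ P] (hH : 0 < T H H H)
    (addc : ∀ x y, c (x + y) = c x + c y)
    (rr : ∀ x, 12 * ((h 0 x : ℤ) - h 1 x + h 2 x - h 3 x) = 2 * T x x x + c x)
    (hsq : ∀ z, T L L z = 0) (hc : c L = 0) (hl : 0 < T H H L) {w : P}
    (hw : 0 < T H w L) (hC : ∀ C, Triv C → 0 ≤ C w)
    (hq : 0 < T L w w ∨ T L w w = 0 ∧ 0 ≤ T w w w) : ∀ᶠ n : ℕ in atTop, Nef (w + n • L) := by
  have hsmc : ∀ (k : ℕ) x, c (k • x) = k * c x := by
    intro k x
    have := map_nsmul (AddMonoidHom.mk' c addc) k x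
    simpa using this
  obtain ⟨n, hn, hn1, hn2, hn3⟩ : ∃ n : ℕ, (∀ g, S.Pr g → 0 ≤ T H (w + n • L) g) ∧
      0 < T H H (w + n • L) ∧ 0 < T H (w + n • L) (w + n • L) ∧
      0 ≤ T (w + n • L) (w + n • L) (w + n • L) := by
    have hcube : ∀ᶠ n : ℕ in atTop, 0 ≤ T w w w + n * (3 * T L w w) := by
      rcases hq with hq | ⟨hq0, hq1⟩
      · exact (big (T w w w) (3 * T L w w) (by linarith)).mono fun n h => h.le
      · exact Eventually.of_forall fun n => by rw [hq0]; linarith
    obtain ⟨n, h1, h2, h3, h4⟩ := ((S.large t hodge hsq hl hw hC).and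
      ((big (T H H w) _ hl).and ((big (T H w w) (2 * T H w L) (by linarith)).and hcube))).exists
    obtain ⟨e1, e2, e3⟩ := nums (H := H) t hsq w n
    exact ⟨n, h1, by rw [e1]; exact h2, by rw [e2]; exact h3, by rw [e3]; exact h4⟩
  set D : P := w + n • L with hDdef
  have hcD : c D = c w := by rw [hDdef, addc, hsmc, hc]; ring
  have heff : ∀ᶠ a : ℕ in atTop, h 0 (a • D + H) ≠ 0 := by
    filter_upwards [eventually_ge_atTop ((c w).natAbs + (c H).natAbs + (T H H D).natAbs + 1)]
      with a ha
    have ha1 : ((c w).natAbs : ℤ) + (c H).natAbs + (T H H D).natAbs + 1 ≤ a := by exact_mod_cast ha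
    have c1 : -((c w).natAbs : ℤ) ≤ c w := by
      have := neg_abs_le (c w)
      rwa [← Int.natCast_natAbs] at this
    have c2 : -((c H).natAbs : ℤ) ≤ c H := by
      have := neg_abs_le (c H)
      rwa [← Int.natCast_natAbs] at this
    have d1 : (0 : ℤ) ≤ (c w).natAbs := Int.natCast_nonneg _
    have d2 : (0 : ℤ) ≤ (c H).natAbs := Int.natCast_nonneg _
    have d3 : (0 : ℤ) ≤ (T H H D).natAbs := Int.natCast_nonneg _
    have ha0 : (1 : ℤ) ≤ a := by linarith
    have e1 : T H (a • D + H) (a • D + H) = a ^ 2 * T H D D + 2 * a * T H H D + T H H H := by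
      simp only [t.add, t.add2, t.nsm3, t.nsm2]
      have : T H D H = T H H D := t.s23 _ _ _
      rw [this]; ring
    have e2 : T H H (a • D + H) = a * T H H D + T H H H := by
      rw [t.add, t.nsm3]
    have e3 : T (a • D + H) (a • D + H) (a • D + H)
        = a ^ 3 * T D D D + 3 * a ^ 2 * T H D D + 3 * a * T H H D + T H H H := by
      simp only [t.add, t.add2, t.add1, t.nsm3, t.nsm2, t.nsm1]
      have f1 : T D D H = T H D D := by rw [t.s23, t.s12]
      have f2 : T D H D = T H D D := t.s12 _ _ _
      have f3 : T H D H = T H H D := t.s23 _ _ _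
      have f4 : T D H H = T H H D := by rw [t.s12, t.s23]
      rw [f1, f2, f3, f4]; ring
    have hpos2 : 0 < T H (a • D + H) (a • D + H) := by
      rw [e1]
      have := mul_pos (pow_pos (show (0:ℤ) < a by linarith) 2) hn2
      have := mul_pos (show (0:ℤ) < 2 * a by linarith) hn1
      linarith
    have hpos1 : 0 < T H H (a • D + H) := by
      rw [e2]
      have := mul_pos (show (0:ℤ) < a by linarith) hn1
      linarith
    have hprime : ∀ g, S.Pr g → 0 < T H (a • D + H) g := by
      intro g hg
      rw [t.add2, t.nsm2]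
      have h1 := mul_nonneg (show (0:ℤ) ≤ a by linarith) (hn g hg)
      have h2 := S.pos g hg
      linarith
    have h2 := S.bog _ hpos2 hpos1 hprime
    have h3 := S.top _ hpos1
    intro h0
    have hrr := rr (a • D + H)
    rw [h0, h2, h3, e3, addc, hsmc, hcD] at hrr
    push_cast at hrr
    have hnn : (0 : ℤ) ≤ h 1 (a • D + H) := Int.natCast_nonneg _
    have g1 : 0 ≤ (a : ℤ) ^ 3 * T D D D := mul_nonneg (by positivity) hn3
    have g2 : (a : ℤ) * (c w).natAbs + (c H).natAbs ≤ a ^ 2 * T H D D := by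
      have k1 : (1 : ℤ) ≤ T H D D := hn2
      have k2 : (a : ℤ) ^ 2 ≤ a ^ 2 * T H D D := by nlinarith [sq_nonneg (a : ℤ)]
      nlinarith
    have g3 : 0 ≤ 3 * (a : ℤ) * T H H D := by positivity
    have g4 : -((a : ℤ) * (c w).natAbs) ≤ a * c w := by nlinarith
    nlinarith
  have hCD : ∀ C, Triv C → 0 ≤ C D := by
    intro C hCu
    have hadd := S.add C hCu
    have hsm : ∀ k : ℕ, C (k • L) = k * C L := by
      intro k
      have := map_nsmul (AddMonoidHom.mk' C hadd) k L
      simpa using this
    rw [hDdef, hadd, hsm, S.zero C hCu, mul_zero, add_zero]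
    exact hC C hCu
  have hk := (S.cone D heff hCD)
  obtain ⟨k0, hk0⟩ := eventually_atTop.1 hk
  filter_upwards [eventually_ge_atTop (n + k0)] with m hm
  have h1 := hk0 (m - n) (by omega)
  have h2 : D + (m - n) • L = w + m • L := by
    rw [hDdef, add_assoc, ← add_smul]
    congr 2
    omega
  rwa [h2] at h1

end Primes

end Pool.Agent.H33.N1
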