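import Pool.Agent.H96.N1.Core

/-! # MP_5ee2d0_ag, numerical dimension one: `v^3 ≥ 0` -/

namespace Pool.Agent.H96.N1.Pencil

variable {P : Type} [AddCommGroup P] {T : P → P → P → ℤ} {c : P → ℤ} {Nef : P → Prop}
  {H L : P} {Triv : (P → ℤ) → Prop} {Run : Prop} (S : Pencil T c Nef H L Triv Run)

/-- the product of the cube of `s N + D + a F` with `s' N + D' + a' F` -/
theorem mixed_expand (hT : Cubic T) (s a s' a' : ℤ) (D D' : S.B) :
    S.Q (s • S.N + D + a • S.F) (s • S.N + D + a • S.F) (s • S.N + D + a • S.F)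
      (s' • S.N + D' + a' • S.F) =
    s ^ 3 * s' * S.Q S.N S.N S.N S.N + s ^ 3 * S.Q S.N S.N S.N D' +
      3 * s ^ 2 * s' * S.Q S.N S.N S.N D + 3 * s ^ 2 * S.Q S.N S.N D D' +
      3 * s * s' * S.Q S.N S.N D D + 3 * s * S.Q S.N D D D' + s' * S.Q S.N D D D +
      S.Q D D D D' + a' * T (S.rho (s • S.N + D)) (S.rho (s • S.N + D)) (S.rho (s • S.N + D)) +
      3 * a * T (S.rho (s • S.N + D)) (S.rho (s • S.N + D)) (S.rho (s' • S.N + D')) := by
  have hT0 : ∀ x y, T 0 x y = 0 := by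
    intro x y
    have h := hT.smul1 0 (0 : P) x y
    simpa using h
  -- the classes `F`
  set U := s • S.N + D with hU
  set U' := s' • S.N + D' with hU'
  have f1 : ∀ x y z, S.Q x S.F y z = T (S.rho x) (S.rho y) (S.rho z) := by
    intro x y z; rw [S.symm12, S.fibre]
  have f2 : ∀ x y z, S.Q x y S.F z = T (S.rho x) (S.rho y) (S.rho z) := by
    intro x y z; rw [S.symm23, f1]
  have f3 : ∀ x y z, S.Q x y z S.F = T (S.rho x) (S.rho y) (S.rho z) := by
    intro x y z; rw [S.symm34, f2]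
  have hT1 : ∀ x y, T x 0 y = 0 := by intro x y; rw [hT.symm12, hT0]
  have hT2 : ∀ x y, T x y 0 = 0 := by intro x y; rw [hT.symm23, hT1]
  have step1 : S.Q (U + a • S.F) (U + a • S.F) (U + a • S.F) (U' + a' • S.F) =
      S.Q U U U U' + a' * T (S.rho U) (S.rho U) (S.rho U) +
        3 * a * T (S.rho U) (S.rho U) (S.rho U') := by
    simp only [S.add, S.add2, S.add3, S.add4, S.smul1, S.smul2, S.smul3, S.smul4, S.fibre, f1, f2,
      f3, S.rho_F, hT0, hT1, hT2]
    ring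
  have e1 : ∀ z, S.Q S.N D S.N z = S.Q S.N S.N D z := fun z => S.symm23 _ _ _ _
  have e2 : ∀ z, S.Q D S.N S.N z = S.Q S.N S.N D z := fun z => by rw [S.symm12, e1]
  have e3 : ∀ z, S.Q D S.N D z = S.Q S.N D D z := fun z => S.symm12 _ _ _ _
  have e4 : ∀ z, S.Q D D S.N z = S.Q S.N D D z := fun z => by rw [S.symm23, e3]
  have e5 : S.Q S.N S.N D S.N = S.Q S.N S.N S.N D := S.symm34 _ _ _ _
  have e6 : S.Q S.N D D S.N = S.Q S.N S.N D D := by rw [S.symm34, e1]
  have e7 : S.Q D D D S.N = S.Q S.N D D D := by rw [S.symm34, e4]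
  have step2 : S.Q U U U U' = s ^ 3 * s' * S.Q S.N S.N S.N S.N + s ^ 3 * S.Q S.N S.N S.N D' +
      3 * s ^ 2 * s' * S.Q S.N S.N S.N D + 3 * s ^ 2 * S.Q S.N S.N D D' +
      3 * s * s' * S.Q S.N S.N D D + 3 * s * S.Q S.N D D D' + s' * S.Q S.N D D D +
      S.Q D D D D' := by
    rw [hU, hU']
    simp only [S.add, S.add2, S.add3, S.add4, S.smul1, S.smul2, S.smul3, S.smul4, e1, e2, e3, e4,
      e5, e6, e7]
    ring
  rw [step1, step2]

/-- the product of the cube of the class of `thr` for `x` with the one for `x'` -/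
theorem mixed (hT : Cubic T) (hLL : ∀ y, T L L y = 0) {κ : ℤ} {v : P} (hκ : 0 < κ)
    (hZ : S.Zero κ v) {D D' : S.B} (hD : S.Ext D) (hD' : S.Ext D') {x x' : P} {m m' : ℤ}
    (hm : 0 < m) (hm' : 0 < m') (hx : S.rho D = m • x) (hx' : S.rho D' = m' • x')
    (hq : 0 < T L x x) (hq' : 0 < T L x' x') (hqq : 0 < T L x x + 2 * T L x x') :
    ∃ (E1 E0 : ℝ) (t0 : ℤ), ∀ t : ℤ, t0 ≤ t → 0 ≤
      (-(T v L x' + 3 * T v L x) + κ * (T v L x' / (3 * κ * T L x' x') * (3 * T L x x)) +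
        3 * κ * (T v L x / (3 * κ * T L x x) * (T L x x + 2 * T L x x'))) * (t : ℝ) ^ 3 +
      (-3 * (T v x x' + T v x x) + κ * (T v L x' / (3 * κ * T L x' x') * T x x x +
        (T v x' x' / (2 * κ * T L x' x') -
          T v L x' * T x' x' x' / (9 * κ * (T L x' x') ^ 2) + S.g * T L H H) * (3 * T L x x)) +
        3 * κ * (T v L x / (3 * κ * T L x x) * T x x x' +
          (T v x x / (2 * κ * T L x x) - T v L x * T x x x / (9 * κ * (T L x x) ^ 2) +
            S.g * T L H H) * (T L x x + 2 * T L x x'))) * (t : ℝ) ^ 2 + E1 * t + E0 := by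
  obtain ⟨K, t1, ht1, h1⟩ := S.thr hT hLL hκ hZ hD hm hx hq
  obtain ⟨K', t1', ht1', h1'⟩ := S.thr hT hLL hκ hZ hD' hm' hx' hq'
  set A : ℝ := T v L x / (3 * κ * T L x x) with hA
  set A' : ℝ := T v L x' / (3 * κ * T L x' x') with hA'
  set B : ℝ := T v x x / (2 * κ * T L x x) - T v L x * T x x x / (9 * κ * (T L x x) ^ 2) with hB
  set B' : ℝ := T v x' x' / (2 * κ * T L x' x') -
    T v L x' * T x' x' x' / (9 * κ * (T L x' x') ^ 2) with hB'
  have hv : T v L L = 0 := by rw [hT.symm12, hT.symm23]; exact hLL v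
  have z4 := S.zero κ v S.N S.N hZ
  have z3 := S.zero κ v S.N D hZ
  have z3' := S.zero κ v S.N D' hZ
  have z2 := S.zero κ v D D hZ
  have z2' := S.zero κ v D D' hZ
  rw [S.rho_N] at z4 z3 z3'
  rw [hx] at z3 z2 z2'
  rw [hx'] at z3' z2'
  rw [hv, add_zero] at z4
  rw [hT.smul3] at z3 z3'
  rw [hT.smul2, hT.smul3] at z2 z2'
  have hn4 : S.Q S.N S.N S.N S.N = 0 := by
    rcases mul_eq_zero.1 z4 with h | h
    · exact absurd h hκ.ne'
    · exact h
  have hmR : (0 : ℝ) < m := by exact_mod_cast hm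
  have hmR' : (0 : ℝ) < m' := by exact_mod_cast hm'
  have hκR : (0 : ℝ) < κ := by exact_mod_cast hκ
  set q1 : ℝ := ((S.Q S.N D D D' : ℤ) : ℝ) with hq1
  set q2 : ℝ := ((S.Q S.N D D D : ℤ) : ℝ) with hq2
  set q3 : ℝ := ((S.Q D D D D' : ℤ) : ℝ) with hq3
  set G : ℝ := K + S.g * T x H H with hG
  set G' : ℝ := K' + S.g * T x' H H with hG'
  refine ⟨κ * (3 * q1 / (m ^ 2 * m') + q2 / m ^ 3) + κ * ((B' + S.g * T L H H) * T x x x +
    3 * G' * T L x x) + 3 * κ * ((B + S.g * T L H H) * T x x x' +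
      G * (T L x x + 2 * T L x x')), κ * (q3 / (m ^ 3 * m')) + κ * (G' * T x x x) +
      3 * κ * (G * T x x x'), max (max t1 t1') (|T x x x| + |T x x x'| + 1), fun t ht => ?_⟩
  obtain ⟨a, -, hn, ha⟩ := h1 t (le_trans (le_trans (le_max_left _ _) (le_max_left _ _)) ht)
  obtain ⟨a', -, hn', ha'⟩ := h1' t (le_trans (le_trans (le_max_right _ _) (le_max_left _ _)) ht)
  have ht2 : |T x x x| + |T x x x'| + 1 ≤ t := le_trans (le_max_right _ _) ht
  have key := S.nonneg _ _ _ _ hn hn hn hn'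
  rw [S.mixed_expand hT] at key
  have c1 : T (S.rho ((m * t) • S.N + D)) (S.rho ((m * t) • S.N + D))
      (S.rho ((m * t) • S.N + D)) = m ^ 3 * (3 * t * T L x x + T x x x) := by
    rw [S.rho_eq, hT.pow3 hLL, hx]
    simp only [hT.smul1, hT.smul2, hT.smul3]
    ring
  have c2 : T (S.rho ((m * t) • S.N + D)) (S.rho ((m * t) • S.N + D))
      (S.rho ((m' * t) • S.N + D')) = m ^ 2 * m' * (t * (T L x x + 2 * T L x x') + T x x x') := by
    have s1 : T L x L = 0 := by rw [hT.symm23]; exact hLL x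
    have s2 : T x L L = 0 := by rw [hT.symm12]; exact s1
    have s3 : T x L x' = T L x x' := hT.symm12 _ _ _
    have s4 : T x x L = T L x x := by rw [hT.symm23, hT.symm12]
    rw [S.rho_eq, S.rho_eq, hx, hx']
    simp only [hT.add, hT.add2, hT.add3, hT.smul1, hT.smul2, hT.smul3, hLL, s1, s2, s3, s4]
    ring
  rw [c1, c2, hn4] at key
  -- the numbers
  have r3 : (κ : ℝ) * (S.Q S.N S.N S.N D : ℤ) = -(m * T v L x) := by
    have h : (κ : ℝ) * (S.Q S.N S.N S.N D : ℤ) + m * T v L x = 0 := by exact_mod_cast z3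
    linarith
  have r3' : (κ : ℝ) * (S.Q S.N S.N S.N D' : ℤ) = -(m' * T v L x') := by
    have h : (κ : ℝ) * (S.Q S.N S.N S.N D' : ℤ) + m' * T v L x' = 0 := by exact_mod_cast z3'
    linarith
  have r2 : (κ : ℝ) * (S.Q S.N S.N D D : ℤ) = -(m * (m * T v x x)) := by
    have h : (κ : ℝ) * (S.Q S.N S.N D D : ℤ) + m * (m * T v x x) = 0 := by exact_mod_cast z2
    linarith
  have r2' : (κ : ℝ) * (S.Q S.N S.N D D' : ℤ) = -(m * (m' * T v x x')) := by
    have h : (κ : ℝ) * (S.Q S.N S.N D D' : ℤ) + m * (m' * T v x x') = 0 := by exact_mod_cast z2'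
    linarith
  have htR : (0 : ℝ) ≤ t := by
    have h := abs_nonneg (T x x x)
    have h' := abs_nonneg (T x x x')
    have : (0 : ℤ) ≤ t := by omega
    exact_mod_cast this
  -- the factors
  have w1 : (0 : ℝ) ≤ 3 * t * T L x x + T x x x := by
    have h : (0 : ℤ) ≤ 3 * t * T L x x + T x x x := by
      nlinarith [neg_abs_le (T x x x), abs_nonneg (T x x x), abs_nonneg (T x x x')]
    exact_mod_cast h
  have w2 : (0 : ℝ) ≤ t * (T L x x + 2 * T L x x') + T x x x' := by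
    have h : (0 : ℤ) ≤ t * (T L x x + 2 * T L x x') + T x x x' := by
      nlinarith [neg_abs_le (T x x x'), abs_nonneg (T x x x), abs_nonneg (T x x x')]
    exact_mod_cast h
  set c : ℤ := a + S.g * (m * (t * T L H H + T x H H)) with hc
  set c' : ℤ := a' + S.g * (m' * (t * T L H H + T x' H H)) with hc'
  have hcR : (c : ℝ) ≤ m * (t ^ 2 * A + t * (B + S.g * T L H H) + G) := by
    rw [hc, hG]; push_cast; linarith
  have hcR' : (c' : ℝ) ≤ m' * (t ^ 2 * A' + t * (B' + S.g * T L H H) + G') := by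
    rw [hc', hG']; push_cast; linarith
  have keyR : (0 : ℝ) ≤ (m * t) ^ 3 * (S.Q S.N S.N S.N D' : ℤ) +
      3 * (m * t) ^ 2 * (m' * t) * (S.Q S.N S.N S.N D : ℤ) +
      3 * (m * t) ^ 2 * (S.Q S.N S.N D D' : ℤ) + 3 * (m * t) * (m' * t) * (S.Q S.N S.N D D : ℤ) +
      3 * (m * t) * q1 + m' * t * q2 + q3 + c' * (m ^ 3 * (3 * t * T L x x + T x x x)) +
      3 * c * (m ^ 2 * m' * (t * (T L x x + 2 * T L x x') + T x x x')) := by
    have h : (0 : ℝ) ≤ ((m * t) ^ 3 * (m' * t) * 0 + (m * t) ^ 3 * S.Q S.N S.N S.N D' +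
      3 * (m * t) ^ 2 * (m' * t) * S.Q S.N S.N S.N D + 3 * (m * t) ^ 2 * S.Q S.N S.N D D' +
      3 * (m * t) * (m' * t) * S.Q S.N S.N D D + 3 * (m * t) * S.Q S.N D D D' +
      m' * t * S.Q S.N D D D + S.Q D D D D' + c' * (m ^ 3 * (3 * t * T L x x + T x x x)) +
      3 * c * (m ^ 2 * m' * (t * (T L x x + 2 * T L x x') + T x x x')) : ℤ) := by
      exact_mod_cast key
    push_cast at h
    linarith
  have b1 : c' * (m ^ 3 * (3 * t * T L x x + T x x x)) ≤
      m' * (t ^ 2 * A' + t * (B' + S.g * T L H H) + G') * (m ^ 3 * (3 * t * T L x x + T x x x)) :=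
    mul_le_mul_of_nonneg_right hcR' (by positivity)
  have b2 : 3 * c * (m ^ 2 * m' * (t * (T L x x + 2 * T L x x') + T x x x')) ≤
      3 * (m * (t ^ 2 * A + t * (B + S.g * T L H H) + G)) *
        (m ^ 2 * m' * (t * (T L x x + 2 * T L x x') + T x x x')) :=
    mul_le_mul_of_nonneg_right (by linarith) (by positivity)
  have e0 : (0 : ℝ) ≤ κ * ((m * t) ^ 3 * (S.Q S.N S.N S.N D' : ℤ) +
      3 * (m * t) ^ 2 * (m' * t) * (S.Q S.N S.N S.N D : ℤ) +
      3 * (m * t) ^ 2 * (S.Q S.N S.N D D' : ℤ) + 3 * (m * t) * (m' * t) * (S.Q S.N S.N D D : ℤ) +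
      3 * (m * t) * q1 + m' * t * q2 + q3 +
      m' * (t ^ 2 * A' + t * (B' + S.g * T L H H) + G') * (m ^ 3 * (3 * t * T L x x + T x x x)) +
      3 * (m * (t ^ 2 * A + t * (B + S.g * T L H H) + G)) *
        (m ^ 2 * m' * (t * (T L x x + 2 * T L x x') + T x x x'))) :=
    mul_nonneg hκR.le (by linarith)
  have e1 : κ * ((m * t) ^ 3 * (S.Q S.N S.N S.N D' : ℤ) +
      3 * (m * t) ^ 2 * (m' * t) * (S.Q S.N S.N S.N D : ℤ) +
      3 * (m * t) ^ 2 * (S.Q S.N S.N D D' : ℤ) + 3 * (m * t) * (m' * t) * (S.Q S.N S.N D D : ℤ) +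
      3 * (m * t) * q1 + m' * t * q2 + q3 +
      m' * (t ^ 2 * A' + t * (B' + S.g * T L H H) + G') * (m ^ 3 * (3 * t * T L x x + T x x x)) +
      3 * (m * (t ^ 2 * A + t * (B + S.g * T L H H) + G)) *
        (m ^ 2 * m' * (t * (T L x x + 2 * T L x x') + T x x x'))) = m ^ 3 * m' *
      ((-(T v L x' + 3 * T v L x) + κ * (A' * (3 * T L x x)) +
        3 * κ * (A * (T L x x + 2 * T L x x'))) * (t : ℝ) ^ 3 +
      (-3 * (T v x x' + T v x x) + κ * (A' * T x x x + (B' + S.g * T L H H) * (3 * T L x x)) +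
        3 * κ * (A * T x x x' + (B + S.g * T L H H) * (T L x x + 2 * T L x x'))) * (t : ℝ) ^ 2 +
      (κ * (3 * q1 / (m ^ 2 * m') + q2 / m ^ 3) + κ * ((B' + S.g * T L H H) * T x x x +
        3 * G' * T L x x) + 3 * κ * ((B + S.g * T L H H) * T x x x' +
        G * (T L x x + 2 * T L x x'))) * t + (κ * (q3 / (m ^ 3 * m')) + κ * (G' * T x x x) +
        3 * κ * (G * T x x x'))) := by
    have i1 : (m : ℝ) ^ 3 * m' * (κ * (3 * q1 / (m ^ 2 * m') + q2 / m ^ 3)) =
        κ * (3 * m * q1 + m' * q2) := by field_simp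
    have i2 : (m : ℝ) ^ 3 * m' * (κ * (q3 / (m ^ 3 * m'))) = κ * q3 := by field_simp
    linear_combination (m : ℝ) ^ 3 * t ^ 3 * r3' + 3 * (m : ℝ) ^ 2 * m' * t ^ 3 * r3 +
      3 * (m : ℝ) ^ 2 * t ^ 2 * r2' + 3 * (m : ℝ) * m' * t ^ 2 * r2 - t * i1 - i2
  rw [e1] at e0
  exact nonneg_of_mul_nonneg_right e0 (by positivity)

/-- `v^3 ≥ 0` -/
theorem cube (hT : Cubic T) (hLL : ∀ y, T L L y = 0) {κ : ℤ} {v : P} (hκ : 0 < κ)
    (hZ : S.Zero κ v) (hl : 0 < T L H H) (hb : 0 < T v L H) (hvv : T v L v = 0)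
    (hext : ∀ s t : ℤ, 0 ≤ s → 0 < t → ∃ m : ℤ, 0 < m ∧ ∃ D, S.rho D = m • (s • v + t • H) ∧ S.Ext D) :
    0 ≤ T v v v := by
  have a1 : T L v v = 0 := by rw [hT.symm12]; exact hvv
  have a2 : T L v H = T v L H := hT.symm12 _ _ _
  have a3 : T L H v = T v L H := by rw [hT.symm23]; exact a2
  have a4 : T v H v = T v v H := hT.symm23 _ _ _
  have a5 : T H v v = T v v H := by rw [hT.symm12, a4]
  have a6 : T H v H = T v H H := hT.symm12 _ _ _
  have a7 : T H H v = T v H H := by rw [hT.symm23, a6]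
  have key : ∀ n : ℤ, 1 ≤ n → (0 : ℝ) ≤ 8 / 3 * (T v L H : ℝ) * (T L H H) ^ 2 * (T v v v) * n ^ 3 +
      (-(6 * (T v L H : ℝ) * T L H H * T v v H) - 12 * (T v L H) ^ 2 * T v H H +
        4 * (T v L H) ^ 3 * T H H H / (3 * T L H H) + 3 / 2 * (T L H H) ^ 2 * T v v v +
        5 * T v L H * T L H H * T v v H + 36 * κ * S.g * (T L H H) ^ 2 * (T v L H) ^ 2 +
        2 * (T v L H) ^ 2 * T v H H + 8 * (T v L H) ^ 2 * (3 * T v H H / 2 -
          T v L H * T H H H / (3 * T L H H))) * n ^ 2 +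
      (-(15 * (T v L H : ℝ) * T v H H) + 4 * (T v L H) ^ 2 * T H H H / (3 * T L H H) +
        42 * κ * S.g * (T L H H) ^ 2 * T v L H + 2 * (T v L H) ^ 2 * T H H H / T L H H +
        10 * T v L H * (3 * T v H H / 2 - T v L H * T H H H / (3 * T L H H))) * n +
      (-(9 / 2 * (T v H H : ℝ)) + 12 * κ * S.g * (T L H H) ^ 2 + T v L H * T H H H / T L H H +
        3 * (3 * T v H H / 2 - T v L H * T H H H / (3 * T L H H))) := by
    intro n hn
    set l := T L H H with hl'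
    set b := T v L H with hb'
    set r := T v v H with hr'
    set s := T v H H with hs'
    set w := T v v v with hw'
    set h3 := T H H H with hh3'
    have hu : 0 < 1 + 2 * b * n := by positivity
    obtain ⟨m, hm, D, hx, hD⟩ := hext 0 (1 + 2 * b * n) le_rfl hu
    obtain ⟨m', hm', D', hx', hD'⟩ := hext (n * l) 1 (by positivity) one_pos
    set x := (0 : ℤ) • v + (1 + 2 * b * n) • H with hxd
    set x' := (n * l) • v + (1 : ℤ) • H with hxd'
    have v1 : T L x x = (1 + 2 * b * n) ^ 2 * l := by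
      simp only [hxd, hT.add2, hT.add3, hT.smul2, hT.smul3, a1, a2, a3]; ring
    have v2 : T L x' x' = (1 + 2 * b * n) * l := by
      simp only [hxd', hT.add2, hT.add3, hT.smul2, hT.smul3, a1, a2, a3]; ring
    have v3 : T L x x' = (1 + 2 * b * n) * (n * l * b + l) := by
      simp only [hxd, hxd', hT.add2, hT.add3, hT.smul2, hT.smul3, a1, a2, a3]; ring
    have v4 : T v L x = (1 + 2 * b * n) * b := by
      simp only [hxd, hT.add3, hT.smul3, hvv]; ring
    have v5 : T v L x' = b := by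
      simp only [hxd', hT.add3, hT.smul3, hvv]; ring
    have v6 : T v x x = (1 + 2 * b * n) ^ 2 * s := by
      simp only [hxd, hT.add2, hT.add3, hT.smul2, hT.smul3, a4]; ring
    have v7 : T v x x' = (1 + 2 * b * n) * (n * l * r + s) := by
      simp only [hxd, hxd', hT.add2, hT.add3, hT.smul2, hT.smul3, a4]; ring
    have v8 : T v x' x' = n ^ 2 * l ^ 2 * w + 2 * n * l * r + s := by
      simp only [hxd', hT.add2, hT.add3, hT.smul2, hT.smul3, a4]; ring
    have v9 : T x x x = (1 + 2 * b * n) ^ 3 * h3 := by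
      simp only [hxd, hT.add, hT.add2, hT.add3, hT.smul1, hT.smul2, hT.smul3, a4, a5, a6, a7]; ring
    have v10 : T x x x' = (1 + 2 * b * n) ^ 2 * (n * l * s + h3) := by
      simp only [hxd, hxd', hT.add, hT.add2, hT.add3, hT.smul1, hT.smul2, hT.smul3, a4, a5, a6, a7]
      ring
    have v11 : T x' x' x' = n ^ 3 * l ^ 3 * w + 3 * n ^ 2 * l ^ 2 * r + 3 * n * l * s + h3 := by
      simp only [hxd', hT.add, hT.add2, hT.add3, hT.smul1, hT.smul2, hT.smul3, a4, a5, a6, a7]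
      ring
    obtain ⟨E1, E0, t0, h⟩ := S.mixed hT hLL hκ hZ hD hD' hm hm' hx hx'
      (by rw [v1]; positivity) (by rw [v2]; positivity) (by rw [v1, v3]; positivity)
    rw [v1, v2, v3, v4, v5, v6, v7, v8, v9, v10, v11, ← hl'] at h
    have hκR : (κ : ℝ) ≠ 0 := by exact_mod_cast hκ.ne'
    have hlR : (l : ℝ) ≠ 0 := by exact_mod_cast hl.ne'
    have huR : (1 + 2 * (b : ℝ) * n) ≠ 0 := by exact_mod_cast hu.ne'
    have h2 := lead2 (a := _) (b := E1) (c := E0) (k1 := t0) fun t ht => by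
      have h3 := h t ht
      push_cast at h3
      have e : ∀ X Y : ℝ, X = 0 → 0 ≤ X * (t : ℝ) ^ 3 + Y * (t : ℝ) ^ 2 + E1 * t + E0 →
          0 ≤ Y * (t : ℝ) ^ 2 + E1 * t + E0 := by
        intro X Y hX hY
        rw [hX, zero_mul, zero_add] at hY
        exact hY
      refine e _ _ ?_ h3
      field_simp
      ring
    refine h2.trans_eq ?_
    field_simp
    ring
  have h4 := lead3 (k1 := 1) key
  have hbR : (0 : ℝ) < T v L H := by exact_mod_cast hb
  have hlR : (0 : ℝ) < T L H H := by exact_mod_cast hl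
  have h5 : (0 : ℝ) ≤ T v v v := nonneg_of_mul_nonneg_right h4 (by positivity)
  exact_mod_cast h5

end Pool.Agent.H96.N1.Pencil
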